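import Pool.Agent.H8.EDA.All

/-!
# Rational self-maps whose first dynamical degree is larger than the third one
-/

set_option autoImplicit false

namespace Pool.Agent.Results.MP_0cda1a_ag.FirstAboveThird

open MvPolynomial

/-- Let `X` be the irreducible projective variety over `Q̄` defined by the homogeneous prime ideal
`I` (some variable is not in `I`), of dimension `n ≥ 3`: any `n + 2` polynomials `u` satisfy a
non-trivial relation `q(u) ∈ I` and there are `n + 1` polynomials `u` such that `q(u) ∈ I` only for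
`q = 0`. Let `f` be a dominant rational self-map of `X` given by homogeneous polynomials `F i` of
degree `d ≥ 1`, common factors are allowed: `p(F) ∈ I` for `p ∈ I`, and dominant means that `q ∈ I`
if `q` is homogeneous and `q(F) ∈ I`. Suppose that `f` is not fibered: if `P` and `Q ∉ I` are
homogeneous of the same degree and `(P / Q) ∘ f = P / Q` on `X` then `P / Q` is constant on `X`.
Suppose that the dynamical degree of index one of `f` is larger than the one of index three: there
are real numbers `0 ≤ μ' < μ` and `C` such that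

* for infinitely many `m` the degree of index one of `f^m` is at least `μ ^ m`: there are linear
  forms `s₀`, `s'`, `s 0, ..., s (n - 1)` and a polynomial `g ≠ 0` in `n` variables such that for
  all `t` with `g(t) ≠ 0` there are at least `μ ^ m` points `x` of `X` with `s₀ ≠ 0` and
  `s' ∘ f^m ≠ 0` which satisfy the equation `s 0 = t 0 * s'` at `f^m(x)` and the `n - 1` equations
  `s i = t i * s₀`, `i ≥ 1`, at `x`;
* for all `m` the degree of index three of `f^m` is at most `C μ' ^ m`: for all linear forms `s₀`,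
  `s'`, `s 0, ..., s (n - 1)` there is a polynomial `g ≠ 0` in `n` variables such that for all `t`
  with `g(t) ≠ 0` at most `C μ' ^ m` points `x` of `X` with `s₀ ≠ 0` and `s' ∘ f^m ≠ 0` satisfy the
  three equations `s i = t i * s'`, `i < 3`, at `f^m(x)` and the `n - 3` equations
  `s i = t i * s₀`, `i ≥ 3`, at `x`.

Then for every homogeneous polynomial `b ∉ I` there is a point `x` of `X(Q̄)` with a well-defined
forward orbit, which is contained in `b ≠ 0` and Zariski dense in `X`. -/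
theorem result (L : ℕ) (I : Ideal (MvPolynomial (Fin L) (AlgebraicClosure ℚ))) (hI : I.IsPrime)
    (hhom : ∀ p ∈ I, ∀ j : ℕ, homogeneousComponent j p ∈ I)
    (hne : ∃ i, (X i : MvPolynomial (Fin L) (AlgebraicClosure ℚ)) ∉ I) (n : ℕ) (hn : 3 ≤ n)
    (hdim : ∀ u : Fin (n + 2) → MvPolynomial (Fin L) (AlgebraicClosure ℚ),
      ∃ q : MvPolynomial (Fin (n + 2)) (AlgebraicClosure ℚ), q ≠ 0 ∧ aeval u q ∈ I)
    (hdim' : ∃ u : Fin (n + 1) → MvPolynomial (Fin L) (AlgebraicClosure ℚ),
      ∀ q : MvPolynomial (Fin (n + 1)) (AlgebraicClosure ℚ), aeval u q ∈ I → q = 0)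
    (F : Fin L → MvPolynomial (Fin L) (AlgebraicClosure ℚ)) (d : ℕ) (hd : 1 ≤ d)
    (hF : ∀ i, (F i).IsHomogeneous d) (hmap : ∀ p ∈ I, aeval F p ∈ I)
    (hdom : ∀ (m : ℕ) (q : MvPolynomial (Fin L) (AlgebraicClosure ℚ)), q.IsHomogeneous m →
      aeval F q ∈ I → q ∈ I)
    (hfib : ∀ (m : ℕ) (P Q : MvPolynomial (Fin L) (AlgebraicClosure ℚ)), P.IsHomogeneous m →
      Q.IsHomogeneous m → Q ∉ I → aeval F P * Q - aeval F Q * P ∈ I →
      ∃ s : AlgebraicClosure ℚ, P - C s * Q ∈ I)
    (μ μ' C : ℝ) (hμ' : 0 ≤ μ') (hμ : μ' < μ)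
    (hone : ∀ M : ℕ, ∃ m : ℕ, M ≤ m ∧
      ∃ (s₀ s' : MvPolynomial (Fin L) (AlgebraicClosure ℚ))
        (s : Fin n → MvPolynomial (Fin L) (AlgebraicClosure ℚ))
        (g : MvPolynomial (Fin n) (AlgebraicClosure ℚ)),
        s₀.IsHomogeneous 1 ∧ s'.IsHomogeneous 1 ∧ (∀ i, (s i).IsHomogeneous 1) ∧ g ≠ 0 ∧
        ∀ t : Fin n → AlgebraicClosure ℚ, eval t g ≠ 0 →
          ∃ S : Finset (Fin L → AlgebraicClosure ℚ), μ ^ m ≤ (S.card : ℝ) ∧
            ∀ x ∈ S, (∀ p ∈ I, eval x p = 0) ∧ eval x s₀ = 1 ∧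
              eval ((fun (z : Fin L → AlgebraicClosure ℚ) (l : Fin L) =>
                eval z (F l))^[m] x) s' ≠ 0 ∧
              ∀ i : Fin n,
                ((i : ℕ) < 1 → eval ((fun (z : Fin L → AlgebraicClosure ℚ) (l : Fin L) =>
                  eval z (F l))^[m] x) (s i) =
                  t i * eval ((fun (z : Fin L → AlgebraicClosure ℚ) (l : Fin L) =>
                    eval z (F l))^[m] x) s') ∧
                (1 ≤ (i : ℕ) → eval x (s i) = t i))
    (hthree : ∀ (m : ℕ) (s₀ s' : MvPolynomial (Fin L) (AlgebraicClosure ℚ))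
      (s : Fin n → MvPolynomial (Fin L) (AlgebraicClosure ℚ)), s₀.IsHomogeneous 1 →
      s'.IsHomogeneous 1 → (∀ i, (s i).IsHomogeneous 1) →
      ∃ g : MvPolynomial (Fin n) (AlgebraicClosure ℚ), g ≠ 0 ∧
        ∀ t : Fin n → AlgebraicClosure ℚ, eval t g ≠ 0 →
          ∀ S : Finset (Fin L → AlgebraicClosure ℚ),
            (∀ x ∈ S, (∀ p ∈ I, eval x p = 0) ∧ eval x s₀ = 1 ∧
              eval ((fun (z : Fin L → AlgebraicClosure ℚ) (l : Fin L) =>
                eval z (F l))^[m] x) s' ≠ 0 ∧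
              ∀ i : Fin n,
                ((i : ℕ) < 3 → eval ((fun (z : Fin L → AlgebraicClosure ℚ) (l : Fin L) =>
                  eval z (F l))^[m] x) (s i) =
                  t i * eval ((fun (z : Fin L → AlgebraicClosure ℚ) (l : Fin L) =>
                    eval z (F l))^[m] x) s') ∧
                (3 ≤ (i : ℕ) → eval x (s i) = t i)) →
            (S.card : ℝ) ≤ C * μ' ^ m)
    (b : MvPolynomial (Fin L) (AlgebraicClosure ℚ)) (t : ℕ) (hb : b.IsHomogeneous t)
    (hbI : b ∉ I) :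
    ∃ x : Fin L → AlgebraicClosure ℚ, (∀ p ∈ I, eval x p = 0) ∧
      (∀ m : ℕ, (fun (z : Fin L → AlgebraicClosure ℚ) (l : Fin L) => eval z (F l))^[m] x ≠ 0) ∧
      (∀ m : ℕ, eval ((fun (z : Fin L → AlgebraicClosure ℚ) (l : Fin L) =>
        eval z (F l))^[m] x) b ≠ 0) ∧
      ∀ (s : ℕ) (q : MvPolynomial (Fin L) (AlgebraicClosure ℚ)), q.IsHomogeneous s →
        (∀ m : ℕ, eval ((fun (z : Fin L → AlgebraicClosure ℚ) (l : Fin L) =>
          eval z (F l))^[m] x) q = 0) →
        q ∈ I := by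
  refine Pool.Agent.H8.EDA.alpX Pool.Agent.H8.EDA.Al.alp hI hhom hne n hn hdim hdim' F d hd hF hmap
    hdom hfib μ μ' C hμ' hμ (fun M => ?_) hthree b t hb hbI
  obtain ⟨m, hm, s₀, s', s, g, hs₀, hs', hs, hg, hpts⟩ := hone M
  exact ⟨m, hm, s₀, s', s, g, hs₀, hs', hs, hg, hpts⟩

end Pool.Agent.Results.MP_0cda1a_ag.FirstAboveThird
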