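import Pool.Agent.H8.EDA.Bet
import Pool.Agent.H2.EDF.Bet
import Pool.Agent.H13.TX.DGC

/-!
# Rational self-maps whose dynamical degree of index `n - 1` is larger than the topological degree
-/

set_option autoImplicit false

namespace Pool.Agent.Results.MP_0cda1a_ag.LambdaAboveDegree

open MvPolynomial

/-- Let `X` be the irreducible projective variety over `Q̄` defined by the homogeneous prime ideal
`I` (some variable is not in `I`), of dimension `n ≥ 3`: any `n + 2` polynomials `u` satisfy a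
non-trivial relation `q(u) ∈ I` and there are `n + 1` polynomials `u` such that `q(u) ∈ I` only for
`q = 0`. Let `f` be a dominant rational self-map of `X` given by homogeneous polynomials `F i` of
degree `d ≥ 1`, common factors are allowed: `p(F) ∈ I` for `p ∈ I`, and dominant means that `q ∈ I`
if `q` is homogeneous and `q(F) ∈ I`. Suppose that `f` is not fibered: if `P` and `Q ∉ I` are
homogeneous of the same degree and `(P / Q) ∘ f = P / Q` on `X` then `P / Q` is constant on `X`.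
Suppose that the dynamical degree of index `n - 1` of `f` is larger than the topological degree
(the one of index `n`) and than the one of index `n - 3`: there are `e ≥ 1` and real numbers
`μ > e` and `0 ≤ μ' < μ` and `C` such that

* the general point of `X` has at most `e` preimages: for `y` in the cone over `X` with `c(y) ≠ 0`,
  `c ∉ I`, a finite set of points `x` of the cone with `F x = y`, no two of which are proportional,
  has at most `e` elements;
* for infinitely many `m` the degree of index `n - 1` of `f^m` is at least `μ ^ m`: there are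
  linear forms `s₀`, `s'`, `s 0, ..., s (n - 1)` and a polynomial `g ≠ 0` in `n` variables such
  that for all `t` with `g(t) ≠ 0` there are at least `μ ^ m` points `x` of `X` with `s₀ ≠ 0` and
  `s' ∘ f^m ≠ 0` which satisfy the `n - 1` equations `s i = t i * s'`, `i < n - 1`, at `f^m(x)` and
  the equation `s (n - 1) = t (n - 1) * s₀` at `x`;
* if `n ≥ 4`, for all `m` the degree of index `n - 3` of `f^m` is at most `C μ' ^ m`: for all linear
  forms `s₀`, `s'`, `s 0, ..., s (n - 1)` there is a polynomial `g ≠ 0` in `n` variables such that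
  for all `t` with `g(t) ≠ 0` at most `C μ' ^ m` points `x` of `X` with `s₀ ≠ 0` and
  `s' ∘ f^m ≠ 0` satisfy the `n - 3` equations `s i = t i * s'`, `i < n - 3`, at `f^m(x)` and the
  three equations `s i = t i * s₀`, `i ≥ n - 3`, at `x`.

Then for every homogeneous polynomial `b ∉ I` there is a point `x` of `X(Q̄)` with a well-defined
forward orbit, which is contained in `b ≠ 0` and Zariski dense in `X`. -/
theorem result (L : ℕ) (I : Ideal (MvPolynomial (Fin L) (AlgebraicClosure ℚ))) (hI : I.IsPrime)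
    (hhom : ∀ p ∈ I, ∀ j : ℕ, homogeneousComponent j p ∈ I)
    (hne : ∃ i, (X i : MvPolynomial (Fin L) (AlgebraicClosure ℚ)) ∉ I) (n : ℕ) (hn : 3 ≤ n)
    (hdim : ∀ u : Fin (n + 2) → MvPolynomial (Fin L) (AlgebraicClosure ℚ),
      ∃ q : MvPolynomial (Fin (n + 2)) (AlgebraicClosure ℚ), q ≠ 0 ∧ aeval u q ∈ I)
    (hdim' : ∃ u : Fin (n + 1) → MvPolynomial (Fin L) (AlgebraicClosure ℚ),
      ∀ q : MvPolynomial (Fin (n + 1)) (AlgebraicClosure ℚ), aeval u q ∈ I → q = 0)
    (F : Fin L → MvPolynomial (Fin L) (AlgebraicClosure ℚ)) (d : ℕ) (hd : 1 ≤ d)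
    (hF : ∀ i, (F i).IsHomogeneous d) (hmap : ∀ p ∈ I, aeval F p ∈ I)
    (hdom : ∀ (m : ℕ) (q : MvPolynomial (Fin L) (AlgebraicClosure ℚ)), q.IsHomogeneous m →
      aeval F q ∈ I → q ∈ I)
    (hfib : ∀ (m : ℕ) (P Q : MvPolynomial (Fin L) (AlgebraicClosure ℚ)), P.IsHomogeneous m →
      Q.IsHomogeneous m → Q ∉ I → aeval F P * Q - aeval F Q * P ∈ I →
      ∃ s : AlgebraicClosure ℚ, P - C s * Q ∈ I)
    (e : ℕ) (μ μ' C : ℝ) (he : 1 ≤ e) (hμe : (e : ℝ) < μ) (hμ' : 0 ≤ μ') (hμ : μ' < μ)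
    (hpre : ∃ c : MvPolynomial (Fin L) (AlgebraicClosure ℚ), c ∉ I ∧
      ∀ y : Fin L → AlgebraicClosure ℚ, (∀ p ∈ I, eval y p = 0) → eval y c ≠ 0 →
        ∀ S : Finset (Fin L → AlgebraicClosure ℚ),
          (∀ x ∈ S, (∀ p ∈ I, eval x p = 0) ∧ (fun i => eval x (F i)) = y) →
          (∀ x ∈ S, ∀ x' ∈ S, ∀ s : AlgebraicClosure ℚ, (∀ i, x' i = s * x i) → x' = x) →
          S.card ≤ e)
    (hlast : ∀ M : ℕ, ∃ m : ℕ, M ≤ m ∧
      ∃ (s₀ s' : MvPolynomial (Fin L) (AlgebraicClosure ℚ))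
        (s : Fin n → MvPolynomial (Fin L) (AlgebraicClosure ℚ))
        (g : MvPolynomial (Fin n) (AlgebraicClosure ℚ)),
        s₀.IsHomogeneous 1 ∧ s'.IsHomogeneous 1 ∧ (∀ i, (s i).IsHomogeneous 1) ∧ g ≠ 0 ∧
        ∀ t : Fin n → AlgebraicClosure ℚ, eval t g ≠ 0 →
          ∃ S : Finset (Fin L → AlgebraicClosure ℚ), μ ^ m ≤ (S.card : ℝ) ∧
            ∀ x ∈ S, (∀ p ∈ I, eval x p = 0) ∧ eval x s₀ = 1 ∧
              eval ((fun (z : Fin L → AlgebraicClosure ℚ) (l : Fin L) =>
                eval z (F l))^[m] x) s' ≠ 0 ∧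
              ∀ i : Fin n,
                ((i : ℕ) < n - 1 → eval ((fun (z : Fin L → AlgebraicClosure ℚ) (l : Fin L) =>
                  eval z (F l))^[m] x) (s i) =
                  t i * eval ((fun (z : Fin L → AlgebraicClosure ℚ) (l : Fin L) =>
                    eval z (F l))^[m] x) s') ∧
                (n - 1 ≤ (i : ℕ) → eval x (s i) = t i))
    (hthird : 4 ≤ n → ∀ (m : ℕ) (s₀ s' : MvPolynomial (Fin L) (AlgebraicClosure ℚ))
      (s : Fin n → MvPolynomial (Fin L) (AlgebraicClosure ℚ)), s₀.IsHomogeneous 1 →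
      s'.IsHomogeneous 1 → (∀ i, (s i).IsHomogeneous 1) →
      ∃ g : MvPolynomial (Fin n) (AlgebraicClosure ℚ), g ≠ 0 ∧
        ∀ t : Fin n → AlgebraicClosure ℚ, eval t g ≠ 0 →
          ∀ S : Finset (Fin L → AlgebraicClosure ℚ),
            (∀ x ∈ S, (∀ p ∈ I, eval x p = 0) ∧ eval x s₀ = 1 ∧
              eval ((fun (z : Fin L → AlgebraicClosure ℚ) (l : Fin L) =>
                eval z (F l))^[m] x) s' ≠ 0 ∧
              ∀ i : Fin n,
                ((i : ℕ) < n - 3 → eval ((fun (z : Fin L → AlgebraicClosure ℚ) (l : Fin L) =>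
                  eval z (F l))^[m] x) (s i) =
                  t i * eval ((fun (z : Fin L → AlgebraicClosure ℚ) (l : Fin L) =>
                    eval z (F l))^[m] x) s') ∧
                (n - 3 ≤ (i : ℕ) → eval x (s i) = t i)) →
            (S.card : ℝ) ≤ C * μ' ^ m)
    (b : MvPolynomial (Fin L) (AlgebraicClosure ℚ)) (t : ℕ) (hb : b.IsHomogeneous t)
    (hbI : b ∉ I) :
    ∃ x : Fin L → AlgebraicClosure ℚ, (∀ p ∈ I, eval x p = 0) ∧
      (∀ m : ℕ, (fun (z : Fin L → AlgebraicClosure ℚ) (l : Fin L) => eval z (F l))^[m] x ≠ 0) ∧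
      (∀ m : ℕ, eval ((fun (z : Fin L → AlgebraicClosure ℚ) (l : Fin L) =>
        eval z (F l))^[m] x) b ≠ 0) ∧
      ∀ (s : ℕ) (q : MvPolynomial (Fin L) (AlgebraicClosure ℚ)), q.IsHomogeneous s →
        (∀ m : ℕ, eval ((fun (z : Fin L → AlgebraicClosure ℚ) (l : Fin L) =>
          eval z (F l))^[m] x) q = 0) →
        q ∈ I := by
  rcases Nat.lt_or_ge 3 n with h4 | h3
  · refine Pool.Agent.H8.EDA.betX Pool.Agent.H2.EDF.Al.bet hI hhom hne n h4 hdim hdim' F d hd hF
      hmap hdom hfib e hpre μ μ' C hμe hμ' hμ (fun M => ?_) (hthird h4) b t hb hbI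
    obtain ⟨m, hm, s₀, s', s, g, hs₀, hs', hs, hg, hpts⟩ := hlast M
    exact ⟨m, hm, s₀, s', s, g, hs₀, hs', hs, hg, hpts⟩
  · obtain rfl : n = 3 := le_antisymm h3 hn
    refine Pool.Agent.H8.EDA.betX3 Pool.Agent.H18.TXB.Al.cbx Pool.Agent.H13.TX.pf_DGC hI hhom hne
      hdim F d hd hF hmap hdom hfib e he hpre μ hμe (fun M => ?_) b t hb hbI
    obtain ⟨m, hm, s₀, s', s, g, hs₀, hs', hs, hg, hpts⟩ := hlast M
    exact ⟨m, hm, s₀, s', s, g, hs₀, hs', hs, hg, hpts⟩

end Pool.Agent.Results.MP_0cda1a_ag.LambdaAboveDegree
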