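import Pool.Agent.H14.TOW.All
import Pool.Agent.H14.TOW.Clo

/-!
# Rational self-maps which preserve a tower of fibrations with small fibres
-/

set_option autoImplicit false

namespace Pool.Agent.Results.MP_0cda1a_ag.TowersOfFibrations

open MvPolynomial

/-- Let `k` be an algebraically closed field of characteristic zero and of finite transcendence
degree over `ℚ`. Let `K` be a field generated over `k` by `x 0, …, x (L - 1)`: the function field of
the irreducible affine variety `X` in `L`-space defined by the polynomials `c` with `c(x) = 0`; a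
dominant rational self-map `f` of `X` is the same as a `k`-algebra endomorphism `σ` of `K`
(`σ a = a ∘ f`). Suppose that `f` is not fibered: only the constants are invariant. Let
`E 0 ≤ E 1 ≤ … ≤ E s = K` be subfields with `σ (E t) ⊆ E t` (the function fields of a tower
`X = X_s ⇢ … ⇢ X_1 ⇢ X_0` of fibrations which is preserved by `f`) such that `X_0` has dimension
at most two and for each `t < s` either the fibres of `X_(t+1) ⇢ X_t` have dimension at most one,
or they have dimension at most two, `E t` and `E (t+1)` are algebraically closed in `K` (the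
general fibres of `X ⇢ X_t` and `X ⇢ X_(t+1)` are irreducible) and `f` is not birational on the
fibres of `X_(t+1) ⇢ X_t` (`E t` and `σ (E (t+1))` do not generate `E (t+1)`).
Then for every polynomial `b` which does not vanish on `X` there is a sequence of points `z 0`,
`z 1 = f (z 0)`, `z 2 = f (z 1)`, … of `X(k)` (at `z j` each function `σ (x i)` is regular, with
the value `z (j+1) i`) which is contained in `b ≠ 0` and Zariski dense in `X`. -/
theorem result (k : Type) [Field k] [CharZero k] [IsAlgClosed k]
    (hk : ∃ s : Finset k, Algebra.IsAlgebraic (IntermediateField.adjoin ℚ (s : Set k)) k)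
    (K : Type) [Field K] [Algebra k K] (L : ℕ) (x : Fin L → K)
    (hx : IntermediateField.adjoin k (Set.range x) = ⊤)
    (σ : K →ₐ[k] K) (hinv : ∀ a : K, σ a = a → ∃ c : k, a = algebraMap k K c)
    (s : ℕ) (E : ℕ → IntermediateField k K) (hE : E s = ⊤)
    (h0 : Algebra.trdeg k (E 0) ≤ 2)
    (hst : ∀ t ≤ s, ∀ a ∈ E t, σ a ∈ E t)
    (hstep : ∀ t < s, E t ≤ E (t + 1) ∧
      (Algebra.trdeg k (E (t + 1)) ≤ Algebra.trdeg k (E t) + 1 ∨
        (Algebra.trdeg k (E (t + 1)) ≤ Algebra.trdeg k (E t) + 2 ∧
          (∀ a : K, IsAlgebraic (E t) a → a ∈ E t) ∧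
          (∀ a : K, IsAlgebraic (E (t + 1)) a → a ∈ E (t + 1)) ∧
          ¬ E (t + 1) ≤ IntermediateField.adjoin k
            ((E t : Set K) ∪ σ '' (E (t + 1) : Set K)))))
    (b : MvPolynomial (Fin L) k) (hb : aeval x b ≠ 0) :
    ∃ z : ℕ → Fin L → k,
      (∀ (j : ℕ) (c : MvPolynomial (Fin L) k), aeval x c = 0 → eval (z j) c = 0) ∧
      (∀ j : ℕ, eval (z j) b ≠ 0) ∧
      (∀ (j : ℕ) (i : Fin L), ∃ p q : MvPolynomial (Fin L) k, eval (z j) q ≠ 0 ∧
        σ (x i) * aeval x q = aeval x p ∧ z (j + 1) i * eval (z j) q = eval (z j) p) ∧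
      ∀ c : MvPolynomial (Fin L) k, (∀ j : ℕ, eval (z j) c = 0) → aeval x c = 0 :=
  Pool.Agent.H14.TOW.towers' k (Pool.Agent.H14.TOW.All.tow k hk) K x hx σ hinv s E hE h0 hst
    hstep b hb

end Pool.Agent.Results.MP_0cda1a_ag.TowersOfFibrations
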